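import Pool.Agent.W2helper44.PT.Stm

/-!
# Piece TF of project PT: the trace on the kernel of the monodromy operator
-/

set_option autoImplicit false

namespace Pool.Agent.W2helper36.PT

open Polynomial Matrix
open Pool.Agent.W2helper44.PT

/-- rational polynomials without common complex root are coprime -/
theorem coprime_of_roots (f g : ℚ[X]) (h : ∀ z : ℂ, aeval z f = 0 → aeval z g = 0 → False) :
    IsCoprime f g := by
  by_contra hc
  have hd : ¬ IsUnit (EuclideanDomain.gcd f g) := fun hu =>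
    hc (EuclideanDomain.gcd_isUnit_iff.1 hu)
  have key : ∃ z : ℂ, aeval z (EuclideanDomain.gcd f g) = 0 := by
    by_cases h0 : EuclideanDomain.gcd f g = 0
    · exact ⟨0, by rw [h0]; simp⟩
    · apply IsAlgClosed.exists_aeval_eq_zero
      intro hdeg
      exact hd (Polynomial.isUnit_iff_degree_eq_zero.2 hdeg)
  obtain ⟨z, hz⟩ := key
  obtain ⟨a, ha⟩ := EuclideanDomain.gcd_dvd_left f g
  obtain ⟨b, hb⟩ := EuclideanDomain.gcd_dvd_right f g
  apply h z
  · rw [ha, map_mul, hz, zero_mul]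
  · rw [hb, map_mul, hz, zero_mul]

section

variable {k : Type} [Field k] [CharZero k] {n : ℕ}

theorem ev_X (γ : Matrix (Fin n) (Fin n) k) : ev γ X = γ := by
  simp [ev]

theorem ev_C (γ : Matrix (Fin n) (Fin n) k) (a : ℚ) : ev γ (C a) = (a : k) • (1 : Matrix (Fin n) (Fin n) k) := by
  simp [ev, Algebra.algebraMap_eq_smul_one]

/-- `N f(γ) = f(Qγ) N` -/
theorem comm_rel (γ N : Matrix (Fin n) (Fin n) k) (Q : ℕ) (hN : N * γ = (Q : k) • (γ * N)) (f : ℚ[X]) :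
    ev γ (f.comp (C (Q : ℚ) * X)) * N = N * ev γ f := by
  induction f using Polynomial.induction_on' with
  | add p q hp hq => rw [add_comp, map_add, map_add, add_mul, mul_add, hp, hq]
  | monomial m a =>
    have h1 : ∀ m : ℕ, ev γ ((C (Q : ℚ) * X) ^ m) * N = N * ev γ (X ^ m) := by
      intro m
      induction m with
      | zero => simp
      | succ m ih =>
        rw [pow_succ', map_mul, mul_assoc, ih, pow_succ' X m, map_mul (ev γ) X]
        have h2 : ev γ (C (Q : ℚ) * X) * N = N * ev γ X := by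
          rw [map_mul, ev_C, ev_X, hN]
          simp
        rw [← mul_assoc, h2, mul_assoc]
    rw [← C_mul_X_pow_eq_monomial, mul_comp, C_comp, pow_comp, X_comp, map_mul, map_mul, mul_assoc,
      h1, ev_C]
    simp

theorem ev_mulVec_mul (γ : Matrix (Fin n) (Fin n) k) (f g : ℚ[X]) (x : Fin n → k) :
    ev γ (f * g) *ᵥ x = ev γ f *ᵥ (ev γ g *ᵥ x) := by
  rw [map_mul, mulVec_mulVec]

theorem ev_swap (γ : Matrix (Fin n) (Fin n) k) (f g : ℚ[X]) (x : Fin n → k) :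
    ev γ f *ᵥ (ev γ g *ᵥ x) = ev γ g *ᵥ (ev γ f *ᵥ x) := by
  rw [← ev_mulVec_mul, ← ev_mulVec_mul, mul_comm]

theorem kill_of_dvd (γ : Matrix (Fin n) (Fin n) k) {f g : ℚ[X]} (h : f ∣ g) {x : Fin n → k}
    (hx : ev γ f *ᵥ x = 0) : ev γ g *ᵥ x = 0 := by
  obtain ⟨a, rfl⟩ := h
  rw [mul_comm, ev_mulVec_mul, hx, mulVec_zero]

theorem fix_of_dvd (γ : Matrix (Fin n) (Fin n) k) {f g : ℚ[X]} (h : f ∣ g - 1) {x : Fin n → k}
    (hx : ev γ f *ᵥ x = 0) : ev γ g *ᵥ x = x := by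
  have h1 := kill_of_dvd γ h hx
  rw [map_sub, sub_mulVec, map_one, one_mulVec] at h1
  exact sub_eq_zero.1 h1

theorem zero_of_coprime (γ : Matrix (Fin n) (Fin n) k) {f g : ℚ[X]} (h : IsCoprime f g) {x : Fin n → k}
    (hf : ev γ f *ᵥ x = 0) (hg : ev γ g *ᵥ x = 0) : x = 0 := by
  obtain ⟨a, b, hab⟩ := h
  have h1 : ev γ (a * f + b * g) *ᵥ x = x := by rw [hab, map_one, one_mulVec]
  rw [← h1, map_add, add_mulVec, ev_mulVec_mul, ev_mulVec_mul, hf, hg, mulVec_zero, mulVec_zero, add_zero]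

end

theorem p_tf : P_TF := by
  intro k _ _ n γ N E Q hQ hN w s h hroot hprod hrank hinj hE1 hE2 pA pB hA1 hA2 hB1 hB2
  classical
  have hQ1 : (1 : ℝ) < Q := by exact_mod_cast (by omega : 1 < Q)
  have hQ0 : (0 : ℝ) < Q := by linarith
  -- coprimality
  have hcop : ∀ (f g : ℚ[X]) (i j : ℤ), i ≠ j → (∀ z : ℂ, aeval z f = 0 → ‖z‖ ^ 2 = (Q : ℝ) ^ i) →
      (∀ z : ℂ, aeval z g = 0 → ‖z‖ ^ 2 = (Q : ℝ) ^ j) → IsCoprime f g := by
    intro f g i j hij hf hg
    apply coprime_of_roots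
    intro z h1 h2
    have h3 := (hf z h1).symm.trans (hg z h2)
    exact hij (zpow_right_injective₀ hQ0 (ne_of_gt hQ1) h3)
  -- rotated polynomials
  have hrot : ∀ j : ℤ, ∀ z : ℂ, aeval z ((h j).comp (C (Q : ℚ) * X)) = 0 → ‖z‖ ^ 2 = (Q : ℝ) ^ (j - 2) := by
    intro j z hz
    rw [aeval_comp] at hz
    have h1 := hroot j _ hz
    have h2 : (aeval z (C (Q : ℚ) * X) : ℂ) = (Q : ℂ) * z := by
      simp
    rw [h2, norm_mul, mul_pow] at h1
    have h3 : ‖(Q : ℂ)‖ = (Q : ℝ) := by simp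
    rw [h3] at h1
    have h4 : (Q : ℝ) ^ j = (Q : ℝ) ^ 2 * (Q : ℝ) ^ (j - 2) := by
      rw [← zpow_natCast (Q : ℝ) 2, ← zpow_add₀ (ne_of_gt hQ0)]
      congr 1
      push_cast
      ring
    rw [h4] at h1
    exact mul_left_cancel₀ (pow_ne_zero 2 (ne_of_gt hQ0)) h1
  have hcopP : ∀ (f : ℚ[X]) (j : ℤ), (∀ z : ℂ, aeval z f = 0 → ‖z‖ ^ 2 = (Q : ℝ) ^ j) →
      IsCoprime f (∏ i ∈ s.erase j, h i) := by
    intro f j hf
    apply IsCoprime.prod_right
    intro i hi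
    exact hcop f (h i) j i (Finset.ne_of_mem_erase hi).symm hf (hroot i)
  -- partial fractions
  have hpf : ∀ j : ℤ, ∃ e : ℚ[X], h j ∣ e - 1 ∧ (∏ i ∈ s.erase j, h i) ∣ e := by
    intro j
    obtain ⟨a, b, hab⟩ := hcopP (h j) j (hroot j)
    refine ⟨b * ∏ i ∈ s.erase j, h i, ⟨-a, ?_⟩, Dvd.intro_left b rfl⟩
    rw [← hab]
    ring
  choose e he1 he2 using hpf
  have hprod' : ∀ j : ℤ, ev γ (h j * ∏ i ∈ s.erase j, h i) = 0 := by
    intro j
    by_cases hj : j ∈ s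
    · rw [Finset.mul_prod_erase s h hj, hprod]
    · rw [Finset.erase_eq_of_notMem hj, map_mul, hprod, mul_zero]
  have hVe : ∀ j x, ev γ (h j) *ᵥ (ev γ (e j) *ᵥ x) = 0 := by
    intro j x
    obtain ⟨c, hc⟩ := he2 j
    rw [← ev_mulVec_mul, hc, ← mul_assoc, map_mul, hprod', zero_mul, zero_mulVec]
  have hsum : ∀ x : Fin n → k, ∑ j ∈ s, ev γ (e j) *ᵥ x = x := by
    intro x
    have h1 : (∏ i ∈ s, h i) ∣ (∑ j ∈ s, e j) - 1 := by
      apply Finset.prod_dvd_of_coprime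
      · intro i _ j _ hij
        exact hcop (h i) (h j) i j hij (hroot i) (hroot j)
      · intro i hi
        rw [← Finset.add_sum_erase s e hi]
        have h2 : e i + ∑ x ∈ s.erase i, e x - 1 = (e i - 1) + ∑ x ∈ s.erase i, e x := by ring
        rw [h2]
        apply dvd_add (he1 i)
        apply Finset.dvd_sum
        intro j hj
        refine dvd_trans ?_ (he2 j)
        exact Finset.dvd_prod_of_mem h (Finset.mem_erase.2 ⟨(Finset.ne_of_mem_erase hj).symm, hi⟩)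
    obtain ⟨c, hc⟩ := h1
    have h3 : ev γ ((∑ j ∈ s, e j) - 1) = 0 := by rw [hc, map_mul, hprod, zero_mul]
    rw [map_sub, map_one, sub_eq_zero, map_sum] at h3
    rw [← Matrix.sum_mulVec, h3, one_mulVec]
  -- vanishing outside of s
  have hout : ∀ j : ℤ, j ∉ s → ∀ x, ev γ (h j) *ᵥ x = 0 → x = 0 := by
    intro j hj x hx
    have h1 := hcopP (h j) j (hroot j)
    rw [Finset.erase_eq_of_notMem hj] at h1
    exact zero_of_coprime γ h1 hx (by rw [hprod, zero_mulVec])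
  have hAfix : ∀ j : ℤ, j ≤ w → ∀ x, ev γ (h j) *ᵥ x = 0 → ev γ pA *ᵥ x = x := by
    intro j hj x hx
    by_cases hjs : j ∈ s
    · exact fix_of_dvd γ (hA1 j hjs hj) hx
    · rw [hout j hjs x hx, mulVec_zero]
  have hBfix : ∀ j : ℤ, j ≤ w - 2 → ∀ x, ev γ (h j) *ᵥ x = 0 → ev γ pB *ᵥ x = x := by
    intro j hj x hx
    by_cases hjs : j ∈ s
    · exact fix_of_dvd γ (hB1 j hjs hj) hx
    · rw [hout j hjs x hx, mulVec_zero]
  -- N lowers the weight
  have hNf : ∀ (f : ℚ[X]) (x : Fin n → k),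
      N *ᵥ (ev γ f *ᵥ x) = ev γ (f.comp (C (Q : ℚ) * X)) *ᵥ (N *ᵥ x) := by
    intro f x
    rw [mulVec_mulVec, mulVec_mulVec, comm_rel γ N Q hN]
  have hlow : ∀ (j : ℤ) (x : Fin n → k), ev γ (h j) *ᵥ x = 0 → ev γ (h (j - 2)) *ᵥ (N *ᵥ x) = 0 := by
    intro j x hx
    have h1 : ev γ ((h j).comp (C (Q : ℚ) * X)) *ᵥ (N *ᵥ x) = 0 := by
      rw [← hNf, hx, mulVec_zero]
    apply zero_of_coprime γ (hcopP ((h j).comp (C (Q : ℚ) * X)) (j - 2) (hrot j))
    · rw [ev_swap, h1, mulVec_zero]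
    · rw [ev_swap, ← ev_mulVec_mul, hprod', zero_mulVec]
  have hlowi : ∀ (i : ℕ) (j : ℤ) (x : Fin n → k), ev γ (h j) *ᵥ x = 0 →
      ev γ (h (j - 2 * i)) *ᵥ (N ^ i *ᵥ x) = 0 := by
    intro i
    induction i with
    | zero => intro j x hx; simpa using hx
    | succ i ih =>
      intro j x hx
      have h1 := hlow _ _ (ih j x hx)
      have h0 : N *ᵥ (N ^ i *ᵥ x) = N ^ (i + 1) *ᵥ x := by rw [mulVec_mulVec, ← pow_succ']
      rw [h0] at h1
      have h2 : j - 2 * (i : ℤ) - 2 = j - 2 * ((i + 1 : ℕ) : ℤ) := by push_cast; ring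
      rwa [h2] at h1
  -- surjectivity
  have hsurj : ∀ (i : ℕ) (y : Fin n → k), ev γ (h (w - i)) *ᵥ y = 0 →
      ∃ z, ev γ (h (w + i)) *ᵥ z = 0 ∧ N ^ i *ᵥ z = y := by
    intro i y hy
    let f : LinearMap.ker (toLin' (ev γ (h (w + i)))) →ₗ[k] LinearMap.ker (toLin' (ev γ (h (w - i)))) :=
      LinearMap.restrict (toLin' (N ^ i)) (by
        intro x hx
        rw [LinearMap.mem_ker, toLin'_apply] at hx ⊢
        rw [toLin'_apply]
        have h1 := hlowi i _ x hx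
        have h2 : w + (i : ℤ) - 2 * i = w - i := by ring
        rwa [h2] at h1)
    have hfx : ∀ x, ((f x : LinearMap.ker (toLin' (ev γ (h (w - i))))) : Fin n → k) =
        N ^ i *ᵥ (x : Fin n → k) := by
      intro x
      rw [← toLin'_apply]
      rfl
    have hf : Function.Injective f := by
      rw [← LinearMap.ker_eq_bot, LinearMap.ker_eq_bot']
      intro x hx
      have h1 : N ^ i *ᵥ (x : Fin n → k) = 0 := by
        have h0 := congrArg Subtype.val hx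
        rw [hfx] at h0
        exact h0
      have h2 := x.2
      rw [LinearMap.mem_ker, toLin'_apply] at h2
      exact Subtype.ext (hinj i _ h2 h1)
    have hs : Function.Surjective f :=
      (LinearMap.injective_iff_surjective_of_finrank_eq_finrank (hrank i)).1 hf
    obtain ⟨z, hz⟩ := hs ⟨y, by rw [LinearMap.mem_ker, toLin'_apply]; exact hy⟩
    refine ⟨z, ?_, ?_⟩
    · have h2 := z.2
      rwa [LinearMap.mem_ker, toLin'_apply] at h2
    · have h0 := congrArg Subtype.val hz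
      rw [hfx] at h0
      exact h0
  -- kernel of N
  have hkerA : ∀ x, N *ᵥ x = 0 → ev γ pA *ᵥ x = x := by
    intro x hx
    have h1 : ∀ j ∈ s, ev γ pA *ᵥ (ev γ (e j) *ᵥ x) = ev γ (e j) *ᵥ x := by
      intro j hj
      by_cases hjw : j ≤ w
      · exact hAfix j hjw _ (hVe j x)
      · have h2 : ∃ i : ℕ, 1 ≤ i ∧ j = w + i := ⟨(j - w).toNat, by omega, by omega⟩
        obtain ⟨i, hi, rfl⟩ := h2
        have h3 : N *ᵥ (ev γ (e (w + i)) *ᵥ x) = 0 := by rw [hNf, hx, mulVec_zero]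
        have h4 : N ^ i *ᵥ (ev γ (e (w + i)) *ᵥ x) = 0 := by
          obtain ⟨m, rfl⟩ : ∃ m, i = m + 1 := ⟨i - 1, by omega⟩
          rw [pow_succ, ← mulVec_mulVec, h3, mulVec_zero]
        rw [hinj i _ (hVe _ x) h4, mulVec_zero]
    calc ev γ pA *ᵥ x = ev γ pA *ᵥ (∑ j ∈ s, ev γ (e j) *ᵥ x) := by rw [hsum]
      _ = ∑ j ∈ s, ev γ pA *ᵥ (ev γ (e j) *ᵥ x) := Matrix.mulVec_sum _ _ _
      _ = ∑ j ∈ s, ev γ (e j) *ᵥ x := Finset.sum_congr rfl h1
      _ = x := hsum x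
  -- N A in B
  have hNA : ∀ x, ev γ pB *ᵥ (N *ᵥ (ev γ pA *ᵥ x)) = N *ᵥ (ev γ pA *ᵥ x) := by
    intro x
    have h1 : ∀ j ∈ s, ev γ pB *ᵥ (N *ᵥ (ev γ pA *ᵥ (ev γ (e j) *ᵥ x))) =
        N *ᵥ (ev γ pA *ᵥ (ev γ (e j) *ᵥ x)) := by
      intro j hj
      by_cases hjw : j ≤ w
      · rw [hAfix j hjw _ (hVe j x)]
        exact hBfix (j - 2) (by omega) _ (hlow j _ (hVe j x))
      · rw [kill_of_dvd γ (hA2 j hj (by omega)) (hVe j x), mulVec_zero, mulVec_zero]
    have h2 : N *ᵥ (ev γ pA *ᵥ x) = ∑ j ∈ s, N *ᵥ (ev γ pA *ᵥ (ev γ (e j) *ᵥ x)) := by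
      conv_lhs => rw [← hsum x]
      rw [Matrix.mulVec_sum, Matrix.mulVec_sum]
    rw [h2, Matrix.mulVec_sum]
    exact Finset.sum_congr rfl h1
  -- B in N A
  have hBN : ∀ v, ∃ x, ev γ pA *ᵥ x = x ∧ N *ᵥ x = ev γ pB *ᵥ v := by
    intro v
    have h1 : ∀ j ∈ s, ∃ x, ev γ pA *ᵥ x = x ∧ N *ᵥ x = ev γ pB *ᵥ (ev γ (e j) *ᵥ v) := by
      intro j hj
      by_cases hjw : j ≤ w - 2
      · have h2 : ∃ i : ℕ, 2 ≤ i ∧ j = w - i := ⟨(w - j).toNat, by omega, by omega⟩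
        obtain ⟨i, hi, rfl⟩ := h2
        obtain ⟨z, hz1, hz2⟩ := hsurj i _ (hVe (w - i) v)
        obtain ⟨m, rfl⟩ : ∃ m, i = m + 1 := ⟨i - 1, by omega⟩
        refine ⟨N ^ m *ᵥ z, ?_, ?_⟩
        · exact hAfix (w + ((m + 1 : ℕ) : ℤ) - 2 * m) (by push_cast; push_cast at hi; omega) _
            (hlowi m _ z hz1)
        · rw [mulVec_mulVec, ← pow_succ', hz2]
          exact (hBfix _ hjw _ (hVe _ v)).symm
      · refine ⟨0, mulVec_zero _, ?_⟩
        rw [mulVec_zero, kill_of_dvd γ (hB2 j hj (by omega)) (hVe j v)]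
    choose! X hX1 hX2 using h1
    refine ⟨∑ j ∈ s, X j, ?_, ?_⟩
    · rw [Matrix.mulVec_sum]
      exact Finset.sum_congr rfl hX1
    · rw [Matrix.mulVec_sum, Finset.sum_congr rfl hX2, ← Matrix.mulVec_sum, hsum]
  -- linear section
  obtain ⟨S, hS1, hS2⟩ : ∃ S : Matrix (Fin n) (Fin n) k, ev γ pA * S = S ∧ N * S = ev γ pB := by
    have h1 : ∀ i : Fin n, ∃ x, ev γ pA *ᵥ x = x ∧ N *ᵥ x = ev γ pB *ᵥ (Pi.single i 1) := fun i => hBN _
    choose x hx1 hx2 using h1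
    refine ⟨Matrix.of fun a i => x i a, ?_, ?_⟩
    · ext a i
      have := congrFun (hx1 i) a
      simpa [Matrix.mul_apply, Matrix.mulVec, dotProduct] using this
    · ext a i
      have := congrFun (hx2 i) a
      simpa [Matrix.mul_apply, Matrix.mulVec, dotProduct, Pi.single_apply] using this
  have mext : ∀ A B : Matrix (Fin n) (Fin n) k, (∀ x, A *ᵥ x = B *ᵥ x) → A = B := by
    intro A B hAB
    apply Matrix.toLin'.injective
    exact LinearMap.ext fun x => by rw [toLin'_apply, toLin'_apply, hAB]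
  have hNE : N * E = 0 := mext _ _ fun x => by rw [← mulVec_mulVec, hE1, zero_mulVec]
  have hAE : ev γ pA * E = E := mext _ _ fun x => by rw [← mulVec_mulVec, hkerA _ (hE1 x)]
  have hNA' : ev γ pB * (N * ev γ pA) = N * ev γ pA := mext _ _ fun x => by
    rw [← mulVec_mulVec, ← mulVec_mulVec, hNA]
  have hEid : ∀ M : Matrix (Fin n) (Fin n) k, N * M = 0 → E * M = M := by
    intro M hM
    apply mext
    intro x
    rw [← mulVec_mulVec]
    apply hE2
    rw [mulVec_mulVec, hM, zero_mulVec]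
  have hγA : ev γ pA * γ = γ * ev γ pA := by
    calc ev γ pA * γ = ev γ pA * ev γ X := by rw [ev_X]
      _ = ev γ X * ev γ pA := by rw [← map_mul, ← map_mul, mul_comm]
      _ = γ * ev γ pA := by rw [ev_X]
  set E0 : Matrix (Fin n) (Fin n) k := (1 - S * N) * ev γ pA with hE0
  have hE0E : E0 * E = E := by
    rw [hE0, mul_assoc, hAE, sub_mul, one_mul, mul_assoc, hNE, mul_zero, sub_zero]
  have hNE0 : N * E0 = 0 := by
    rw [hE0, ← mul_assoc, mul_sub, mul_one, ← mul_assoc, hS2, sub_mul, mul_assoc, hNA', sub_self]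
  have hEγ : E * (γ * E0) = γ * E0 := by
    apply hEid
    rw [← mul_assoc, hN, smul_mul_assoc, mul_assoc, hNE0, mul_zero, smul_zero]
  calc (γ * E).trace = (γ * (E0 * E)).trace := by rw [hE0E]
    _ = (E * (γ * E0)).trace := by rw [← mul_assoc, trace_mul_comm]
    _ = (γ * E0).trace := by rw [hEγ]
    _ = (γ * ev γ pA).trace - (γ * (S * (N * ev γ pA))).trace := by
        rw [hE0, sub_mul, one_mul, mul_sub, trace_sub, mul_assoc]
    _ = (γ * ev γ pA).trace - (Q : k) * (γ * ev γ pB).trace := by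
        congr 1
        have h1 : γ * (S * (N * ev γ pA)) = (γ * S) * (N * ev γ pA) := by rw [mul_assoc]
        rw [h1, trace_mul_comm]
        have h2 : N * ev γ pA * (γ * S) = (Q : k) • (γ * ev γ pB) := by
          rw [mul_assoc, ← mul_assoc (ev γ pA), hγA, mul_assoc, hS1, ← mul_assoc, hN, smul_mul_assoc,
            mul_assoc, hS2]
        rw [h2, trace_smul, smul_eq_mul]

end Pool.Agent.W2helper36.PT
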